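import Mathlib
set_option autoImplicit false

namespace Pool.Agent.H.MP_259edd_an
open Set Metric Filter Topology

universe u v

structure Ctx (p : ℝ) {M : Type v} [MetricSpace M] (o : M) {X : Type u} [NormedAddCommGroup X]
    [Module ℝ X] (δ : M → X) : Prop where
  hp : 0 < p
  hom : ∀ (t : ℝ) (u : X), ‖t • u‖ = |t| ^ p * ‖u‖
  h0 : δ o = 0
  iso : ∀ x y, ‖δ x - δ y‖ ≤ dist x y ^ p
  dense : Dense ((Submodule.span ℝ (range δ) : Submodule ℝ X) : Set X)
  univ : ∀ (Y : Type u) [NormedAddCommGroup Y] [Module ℝ Y] [CompleteSpace Y],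
    (∀ (t : ℝ) (u : Y), ‖t • u‖ = |t| ^ p * ‖u‖) → ∀ (f : M → Y) (C : ℝ), 0 ≤ C → f o = 0 →
    (∀ x y, ‖f x - f y‖ ≤ C * dist x y ^ p) →
    ∃ T : X →ₗ[ℝ] Y, (∀ x, T (δ x) = f x) ∧ ∀ u, ‖T u‖ ≤ C * ‖u‖

def clamp (t : ℝ) : ℝ := max 0 (min 1 t)

lemma clamp_lip (s t : ℝ) : |clamp s - clamp t| ≤ |s - t| := by
  unfold clamp
  refine (abs_max_sub_max_le_max _ _ _ _).trans ?_
  simp only [sub_self, abs_zero, max_le_iff, abs_nonneg, true_and]
  refine (abs_min_sub_min_le_max _ _ _ _).trans ?_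
  simp

lemma clamp_nonneg (t : ℝ) : 0 ≤ clamp t := le_max_left _ _

lemma clamp_le_one (t : ℝ) : clamp t ≤ 1 := max_le zero_le_one (min_le_left _ _)

lemma clamp_abs (t : ℝ) : |clamp t| ≤ 1 := by
  rw [abs_of_nonneg (clamp_nonneg t)]; exact clamp_le_one t

lemma clamp_one {t : ℝ} (h : 1 ≤ t) : clamp t = 1 := by
  unfold clamp; rw [min_eq_left h]; simp

lemma clamp_zero {t : ℝ} (h : t ≤ 0) : clamp t = 0 := by
  unfold clamp; exact max_eq_left ((min_le_right _ _).trans h)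

variable {p : ℝ} {M : Type v} [MetricSpace M] {o : M} {X : Type u} [NormedAddCommGroup X]
  [Module ℝ X] {δ : M → X}

structure Good (o : M) (h : M → ℝ) (K B R : ℝ) : Prop where
  hK : 0 ≤ K
  hB : 0 ≤ B
  hR : 0 ≤ R
  lip : ∀ x y, |h x - h y| ≤ K * dist x y
  bd : ∀ x, |h x| ≤ B
  supp : ∀ x, R < dist x o → h x = 0

lemma Good.mul {h g : M → ℝ} {K B R K' : ℝ} (H : Good o h K B R) (hK' : 0 ≤ K')
    (hg : ∀ x y, |g x - g y| ≤ K' * dist x y) (hb : ∀ x, |g x| ≤ 1) :
    Good o (fun x => h x * g x) (K + B * K') B R where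
  hK := add_nonneg H.hK (mul_nonneg H.hB hK')
  hB := H.hB
  hR := H.hR
  lip x y := by
    have e : h x * g x - h y * g y = (h x - h y) * g x + h y * (g x - g y) := by ring
    rw [e]
    refine (abs_add_le _ _).trans ?_
    rw [abs_mul, abs_mul]
    have h1 : |h x - h y| * |g x| ≤ K * dist x y * 1 :=
      mul_le_mul (H.lip x y) (hb x) (abs_nonneg _) (mul_nonneg H.hK dist_nonneg)
    have h2 : |h y| * |g x - g y| ≤ B * (K' * dist x y) :=
      mul_le_mul (H.bd y) (hg x y) (abs_nonneg _) H.hB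
    nlinarith
  bd x := by
    rw [abs_mul]
    have := mul_le_mul (H.bd x) (hb x) (abs_nonneg _) H.hB
    linarith
  supp x hx := by simp [H.supp x hx]

lemma vanish {Y : Type*} [NormedAddCommGroup Y] [Module ℝ Y] (T : X →ₗ[ℝ] Y) (C : ℝ)
    (hT : ∀ u, ‖T u‖ ≤ C * ‖u‖) (S : Set M) (h : ∀ x ∈ S, T (δ x) = 0) (u : X)
    (hu : u ∈ closure ((Submodule.span ℝ (δ '' S) : Submodule ℝ X) : Set X)) : T u = 0 := by
  have hc : Continuous T := AddMonoidHomClass.continuous_of_bound T C hT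
  have h1 : ((Submodule.span ℝ (δ '' S) : Submodule ℝ X) : Set X) ⊆ {u | T u = 0} := by
    have : Submodule.span ℝ (δ '' S) ≤ LinearMap.ker T := by
      rw [Submodule.span_le]
      rintro _ ⟨x, hx, rfl⟩
      exact h x hx
    intro v hv
    exact this hv
  exact closure_minimal h1 (isClosed_eq hc continuous_const) hu

lemma Ctx.mem_closure (c : Ctx p o δ) (u : X) :
    u ∈ closure ((Submodule.span ℝ (δ '' Set.univ) : Submodule ℝ X) : Set X) := by
  rw [image_univ]; exact c.dense u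

lemma Ctx.norm_le (c : Ctx p o δ) (x : M) : ‖δ x‖ ≤ dist x o ^ p := by
  have := c.iso x o
  rwa [c.h0, sub_zero] at this

lemma smul_diff_le {Y : Type*} [NormedAddCommGroup Y] [Module ℝ Y]
    (hom : ∀ (t : ℝ) (u : Y), ‖t • u‖ = |t| ^ p * ‖u‖) (a b : ℝ) (u w : Y) :
    ‖a • u - b • w‖ ≤ |a - b| ^ p * ‖u‖ + |b| ^ p * ‖u - w‖ := by
  have e : a • u - b • w = (a - b) • u + b • (u - w) := by
    rw [sub_smul, smul_sub]; abel
  rw [e, ← hom, ← hom]
  exact norm_add_le _ _

lemma Ctx.exists_op [CompleteSpace X] (c : Ctx p o δ) {h : M → ℝ} {K B R : ℝ}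
    (H : Good o h K B R) :
    ∃ T : X →ₗ[ℝ] X, (∀ x, T (δ x) = h x • δ x) ∧ ∀ u, ‖T u‖ ≤ ((K * R) ^ p + B ^ p) * ‖u‖ := by
  have hp := c.hp
  have hKR : 0 ≤ K * R := mul_nonneg H.hK H.hR
  have hB := H.hB
  have key : ∀ x y, dist x o ≤ R →
      ‖h x • δ x - h y • δ y‖ ≤ ((K * R) ^ p + B ^ p) * dist x y ^ p := by
    intro x y hx
    refine (smul_diff_le c.hom _ _ _ _).trans ?_
    have h1 : |h x - h y| ^ p * ‖δ x‖ ≤ (K * dist x y) ^ p * R ^ p :=
      mul_le_mul (Real.rpow_le_rpow (abs_nonneg _) (H.lip x y) hp.le)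
        ((c.norm_le x).trans (Real.rpow_le_rpow dist_nonneg hx hp.le)) (norm_nonneg _)
        (Real.rpow_nonneg (mul_nonneg H.hK dist_nonneg) _)
    have h2 : |h y| ^ p * ‖δ x - δ y‖ ≤ B ^ p * dist x y ^ p :=
      mul_le_mul (Real.rpow_le_rpow (abs_nonneg _) (H.bd y) hp.le) (c.iso x y) (norm_nonneg _)
        (Real.rpow_nonneg hB _)
    have h3 : (K * dist x y) ^ p * R ^ p = (K * R) ^ p * dist x y ^ p := by
      rw [Real.mul_rpow H.hK dist_nonneg, Real.mul_rpow H.hK H.hR]; ring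
    nlinarith
  refine c.univ X c.hom (fun x => h x • δ x) _ (by positivity) (by simp [c.h0]) ?_
  intro x y
  by_cases hx : dist x o ≤ R
  · exact key x y hx
  by_cases hy : dist y o ≤ R
  · rw [norm_sub_rev, dist_comm]; exact key y x hy
  · simp only [H.supp x (not_le.mp hx), H.supp y (not_le.mp hy), zero_smul, sub_self, norm_zero]
    positivity

def Kill (δ : M → X) (μ : X) (h : M → ℝ) : Prop :=
  ∀ (T : X →ₗ[ℝ] X) (C : ℝ), (∀ x, T (δ x) = h x • δ x) → (∀ u, ‖T u‖ ≤ C * ‖u‖) → T μ = 0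

def Z (o : M) (δ : M → X) (μ : X) (U : Set M) : Prop :=
  ∀ (h : M → ℝ) (K B R : ℝ), Good o h K B R → (∀ x, x ∉ U → h x = 0) → Kill δ μ h

lemma Z.mono {μ : X} {U V : Set M} (h : Z o δ μ V) (hUV : U ⊆ V) : Z o δ μ U :=
  fun g K B R H hz => h g K B R H (fun x hx => hz x (fun hx' => hx (hUV hx')))

lemma Ctx.kill_add [CompleteSpace X] (c : Ctx p o δ) {μ : X} {h h1 h2 : M → ℝ}
    {K1 B1 R1 K2 B2 R2 : ℝ} (H1 : Good o h1 K1 B1 R1) (H2 : Good o h2 K2 B2 R2)
    (k1 : Kill δ μ h1) (k2 : Kill δ μ h2) (e : ∀ x, h x = h1 x + h2 x) : Kill δ μ h := by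
  intro T C hT hC
  obtain ⟨T1, a1, b1⟩ := c.exists_op H1
  obtain ⟨T2, a2, b2⟩ := c.exists_op H2
  have z1 := k1 T1 _ a1 b1
  have z2 := k2 T2 _ a2 b2
  have := vanish (δ := δ) (T - T1 - T2)
    (C + ((K1 * R1) ^ p + B1 ^ p) + ((K2 * R2) ^ p + B2 ^ p)) (fun u => by
      simp only [LinearMap.sub_apply]
      have := norm_sub_le (T u - T1 u) (T2 u)
      have := norm_sub_le (T u) (T1 u)
      have := hC u; have := b1 u; have := b2 u
      nlinarith) Set.univ (fun x _ => by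
      simp only [LinearMap.sub_apply, hT, a1, a2, e, add_smul]; abel) μ (c.mem_closure μ)
  simpa [z1, z2] using this

lemma Ctx.Z_empty (c : Ctx p o δ) (μ : X) : Z o δ μ ∅ := by
  intro h K B R _ hz T C hT hC
  exact vanish (δ := δ) T C hC Set.univ (fun x _ => by rw [hT, hz x (by simp), zero_smul]) μ
    (c.mem_closure μ)

lemma Z_of_disjoint {μ : X} {S U : Set M}
    (hμ : μ ∈ closure ((Submodule.span ℝ (δ '' S) : Submodule ℝ X) : Set X))
    (hd : ∀ x ∈ S, x ∉ U) : Z o δ μ U := by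
  intro h K B R _ hz T C hT hC
  exact vanish (δ := δ) T C hC S (fun x hx => by rw [hT, hz x (hd x hx), zero_smul]) μ hμ

lemma Ctx.Z_finite [CompleteSpace X] (c : Ctx p o δ) {μ : X} {r : ℝ} (hr : 0 < r) (F : Finset M)
    (hF : ∀ x ∈ F, Z o δ μ (ball x (2 * r))) : Z o δ μ (⋃ x ∈ F, ball x r) := by
  classical
  induction F using Finset.induction_on with
  | empty => simpa using c.Z_empty μ
  | insert a F _ ih =>
    have ih' := ih (fun x hx => hF x (Finset.mem_insert_of_mem hx))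
    intro h K B R H hz
    set ψ : M → ℝ := fun y => clamp (2 - dist y a / r) with hψ
    have lψ : ∀ x y, |ψ x - ψ y| ≤ (1 / r) * dist x y := by
      intro x y
      refine (clamp_lip _ _).trans ?_
      have e : 2 - dist x a / r - (2 - dist y a / r) = (1 / r) * (dist y a - dist x a) := by ring
      rw [e, abs_mul, abs_of_pos (by positivity : (0:ℝ) < 1 / r)]
      refine mul_le_mul_of_nonneg_left ?_ (by positivity)
      rw [dist_comm x y]; exact abs_dist_sub_le _ _ _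
    have H1 := H.mul (g := ψ) (by positivity) lψ (fun x => clamp_abs _)
    have H2 := H.mul (g := fun y => 1 - ψ y) (K' := 1 / r) (by positivity)
      (fun x y => by
        have e : 1 - ψ x - (1 - ψ y) = -(ψ x - ψ y) := by ring
        rw [e, abs_neg]; exact lψ x y)
      (fun x => by
        have := clamp_nonneg (2 - dist x a / r)
        have := clamp_le_one (2 - dist x a / r)
        rw [abs_le]; constructor <;> simp only [hψ] <;> linarith)
    refine c.kill_add H1 H2 (hF a (Finset.mem_insert_self _ _) _ _ _ _ H1 ?_)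
      (ih' _ _ _ _ H2 ?_) (fun x => by ring)
    · intro x hx
      have hx' : 2 * r ≤ dist x a := by simpa using hx
      have : ψ x = 0 := clamp_zero (by
        have : 2 ≤ dist x a / r := by rw [le_div_iff₀ hr]; exact hx'
        linarith)
      simp [this]
    · intro x hx
      by_cases hxa : dist x a < r
      · have : ψ x = 1 := clamp_one (by
          have : dist x a / r ≤ 1 := by rw [div_le_one hr]; exact hxa.le
          linarith)
        simp [this]
      · have : h x = 0 := hz x (by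
          simp only [Finset.mem_insert, iUnion_iUnion_eq_or_left, mem_union, not_or]
          exact ⟨hxa, hx⟩)
        simp [this]

lemma finite_supp {u : X} (hu : u ∈ Submodule.span ℝ (range δ)) :
    ∃ F : Finset M, u ∈ Submodule.span ℝ (δ '' (F : Set M)) := by
  classical
  induction hu using Submodule.span_induction with
  | mem x hx =>
    obtain ⟨y, rfl⟩ := hx
    exact ⟨{y}, Submodule.subset_span ⟨y, by simp, rfl⟩⟩
  | zero => exact ⟨∅, Submodule.zero_mem _⟩
  | add x y _ _ hx hy =>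
    obtain ⟨F, hF⟩ := hx
    obtain ⟨G, hG⟩ := hy
    refine ⟨F ∪ G, Submodule.add_mem _ (Submodule.span_mono (image_mono ?_) hF)
      (Submodule.span_mono (image_mono ?_) hG)⟩ <;> simp
  | smul a x _ hx =>
    obtain ⟨F, hF⟩ := hx
    exact ⟨F, Submodule.smul_mem _ _ hF⟩

lemma Ctx.approx (c : Ctx p o δ) (μ : X) {η : ℝ} (hη : 0 < η) :
    ∃ (F : Finset M) (u : X), u ∈ Submodule.span ℝ (δ '' (F : Set M)) ∧ ‖μ - u‖ < η := by
  obtain ⟨u, hu, hd⟩ := Metric.mem_closure_iff.mp (c.dense μ) η hη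
  obtain ⟨F, hF⟩ := finite_supp hu
  exact ⟨F, u, hF, by rwa [← dist_eq_norm]⟩

lemma eq_zero_of_small {Y : Type*} [NormedAddCommGroup Y] (y : Y) (C : ℝ)
    (h : ∀ η > 0, ‖y‖ ≤ C * η) : y = 0 := by
  by_contra hy
  have hy' : 0 < ‖y‖ := norm_pos_iff.mpr hy
  have hC : 0 < C := by
    have := h 1 one_pos
    linarith
  have := h (‖y‖ / (2 * C)) (by positivity)
  have e : C * (‖y‖ / (2 * C)) = ‖y‖ / 2 := by field_simp
  linarith

lemma Ctx.Z_glue [CompleteSpace X] (c : Ctx p o δ) {μ : X} {r : ℝ} (hr : 0 < r) (V : Set M)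
    (hV : ∀ x ∈ V, Z o δ μ (ball x (2 * r))) : Z o δ μ V := by
  classical
  rcases V.eq_empty_or_nonempty with rfl | ⟨v0, hv0⟩
  · exact c.Z_empty μ
  intro h K B R H hz T C hT hC
  apply eq_zero_of_small _ (|C| + (((K + B * (1 / r)) * R) ^ p + B ^ p))
  intro η hη
  obtain ⟨F, u, hu, hd⟩ := c.approx μ hη
  set F' : Finset M := insert v0 (F.filter (· ∈ V)) with hF'
  have hne : (F' : Set M).Nonempty := ⟨v0, by simp [hF']⟩
  set g : M → ℝ := fun y => clamp (1 - infDist y (F' : Set M) / r) with hg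
  have lg : ∀ x y, |g x - g y| ≤ (1 / r) * dist x y := by
    intro x y
    refine (clamp_lip _ _).trans ?_
    have e : 1 - infDist x (F' : Set M) / r - (1 - infDist y (F' : Set M) / r)
      = (1 / r) * (infDist y (F' : Set M) - infDist x (F' : Set M)) := by ring
    rw [e, abs_mul, abs_of_pos (by positivity : (0:ℝ) < 1 / r)]
    refine mul_le_mul_of_nonneg_left ?_ (by positivity)
    have h1 := infDist_le_infDist_add_dist (x := x) (y := y) (s := (F' : Set M))
    have h2 := infDist_le_infDist_add_dist (x := y) (y := x) (s := (F' : Set M))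
    rw [dist_comm y x] at h2
    rw [abs_le]; constructor <;> linarith
  have H1 := H.mul (g := g) (by positivity) lg (fun x => clamp_abs _)
  obtain ⟨T1, a1, b1⟩ := c.exists_op H1
  have z1 : T1 μ = 0 := by
    refine c.Z_finite hr F' ?_ _ _ _ _ H1 ?_ T1 _ a1 b1
    · intro x hx
      simp only [hF', Finset.mem_insert, Finset.mem_filter] at hx
      rcases hx with rfl | hx
      · exact hV _ hv0
      · exact hV _ hx.2
    · intro x hx
      have : r ≤ infDist x (F' : Set M) := by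
        rw [le_infDist hne]
        intro y hy
        by_contra hlt
        exact hx (mem_iUnion₂.mpr ⟨y, hy, not_le.mp hlt⟩)
      have : g x = 0 := clamp_zero (by
        have : 1 ≤ infDist x (F' : Set M) / r := by rw [le_div_iff₀ hr]; linarith
        linarith)
      simp [this]
  have e1 : T u = T1 u := by
    refine LinearMap.eqOn_span (s := δ '' (F : Set M)) ?_ hu
    rintro _ ⟨x, hx, rfl⟩
    rw [hT, a1]
    by_cases hxV : x ∈ V
    · have : g x = 1 := clamp_one (by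
        rw [infDist_zero_of_mem (by simp [hF']; exact Or.inr ⟨hx, hxV⟩)]; simp)
      simp [this]
    · simp [hz x hxV]
  have e2 : T μ = T (μ - u) - T1 (μ - u) := by
    rw [map_sub, map_sub, e1, z1]; abel
  rw [e2]
  refine (norm_sub_le _ _).trans ?_
  have h1 : ‖T (μ - u)‖ ≤ |C| * η :=
    (hC _).trans (mul_le_mul (le_abs_self _) hd.le (norm_nonneg _) (abs_nonneg _))
  have hpos : 0 ≤ ((K + B * (1 / r)) * R) ^ p + B ^ p :=
    add_nonneg (Real.rpow_nonneg (mul_nonneg H1.hK H1.hR) _) (Real.rpow_nonneg H.hB _)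
  have h2 : ‖T1 (μ - u)‖ ≤ (((K + B * (1 / r)) * R) ^ p + B ^ p) * η :=
    (b1 _).trans (mul_le_mul_of_nonneg_left hd.le hpos)
  linarith

lemma Ctx.Z_cantor [CompleteSpace X] [CompleteSpace M] (c : Ctx p o δ) {μ : X} {r : ℝ}
    (hr : 0 < r) (V : Set M)
    (hV : ∀ x ∈ V, ∀ y, dist x y ≤ 2 * r → ∃ s > 0, Z o δ μ (ball y s)) : Z o δ μ V := by
  by_contra hn
  have step : ∀ (W : Set M) (s : ℝ), 0 < s → ¬ Z o δ μ W → ∃ x ∈ W, ¬ Z o δ μ (ball x s) := by
    intro W s hs hW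
    by_contra hc
    push Not at hc
    apply hW
    apply c.Z_glue (r := s / 2) (by positivity)
    intro x hx
    rw [show 2 * (s / 2) = s by ring]
    exact hc x hx
  obtain ⟨x0, hx0, h0⟩ := step V r hr hn
  have step2 : ∀ (k : ℕ) (x : {x : M // ¬ Z o δ μ (ball x (r / 2 ^ k))}),
      ∃ y : {x : M // ¬ Z o δ μ (ball x (r / 2 ^ (k + 1)))}, dist x.1 y.1 ≤ r / 2 ^ k := by
    intro k x
    obtain ⟨y, hy, hy'⟩ := step _ (r / 2 ^ (k + 1)) (by positivity) x.2
    exact ⟨⟨y, hy'⟩, by rw [dist_comm]; exact (mem_ball.mp hy).le⟩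
  choose f hf using step2
  let s : (k : ℕ) → {x : M // ¬ Z o δ μ (ball x (r / 2 ^ k))} :=
    fun k => Nat.rec (motive := fun k => {x : M // ¬ Z o δ μ (ball x (r / 2 ^ k))})
      ⟨x0, by simpa using h0⟩ (fun k x => f k x) k
  have hs : ∀ k, dist (s k).1 (s (k + 1)).1 ≤ (2 * r) / 2 / 2 ^ k := by
    intro k
    rw [show 2 * r / 2 = r by ring]
    exact hf k (s k)
  have hc : CauchySeq (fun k => (s k).1) := cauchySeq_of_le_geometric_two hs
  obtain ⟨a, ha⟩ := cauchySeq_tendsto_of_complete hc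
  have h1 : dist x0 a ≤ 2 * r := dist_le_of_le_geometric_two_of_tendsto₀ hs ha
  obtain ⟨t, ht, hZ⟩ := hV x0 hx0 a h1
  obtain ⟨k, hk⟩ : ∃ k : ℕ, 3 * r / 2 ^ k < t := by
    obtain ⟨k, hk⟩ := pow_unbounded_of_one_lt (3 * r / t) (by norm_num : (1:ℝ) < 2)
    refine ⟨k, ?_⟩
    rw [div_lt_iff₀ ht] at hk
    rw [div_lt_iff₀ (by positivity)]
    linarith
  apply (s k).2
  apply hZ.mono
  intro y hy
  have h2 := dist_le_of_le_geometric_two_of_tendsto hs ha k
  have h3 := dist_triangle y (s k).1 a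
  have h4 := mem_ball.mp hy
  have e : 3 * r / 2 ^ k = r / 2 ^ k + 2 * r / 2 ^ k := by ring
  exact mem_ball.mpr (by linarith)

end Pool.Agent.H.MP_259edd_an
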