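import Pool.Agent.H.MP_259edd_an.A
set_option autoImplicit false

namespace Pool.Agent.H.MP_259edd_an
open Set Metric Filter Topology

universe u v

variable {p : ℝ} {M : Type v} [MetricSpace M] {o : M} {X : Type u} [NormedAddCommGroup X]
  [Module ℝ X] {δ : M → X}

lemma quot_hom (hp : 0 < p) (hom : ∀ (t : ℝ) (u : X), ‖t • u‖ = |t| ^ p * ‖u‖)
    (N : Submodule ℝ X) (t : ℝ) (q : X ⧸ N) : ‖t • q‖ = |t| ^ p * ‖q‖ := by
  have le : ∀ (t : ℝ) (q : X ⧸ N), ‖t • q‖ ≤ |t| ^ p * ‖q‖ := by
    intro t q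
    refine le_of_forall_pos_le_add ?_
    intro ε hε
    have ht : 0 ≤ |t| ^ p := Real.rpow_nonneg (abs_nonneg _) _
    obtain ⟨m, rfl, hm⟩ := Submodule.Quotient.norm_mk_lt q (ε := ε / (|t| ^ p + 1)) (by positivity)
    have h1 : ‖t • (Submodule.Quotient.mk m : X ⧸ N)‖ ≤ |t| ^ p * ‖m‖ := by
      rw [← Submodule.Quotient.mk_smul, ← hom]
      exact Submodule.Quotient.norm_mk_le _ _
    have h2 : |t| ^ p * (ε / (|t| ^ p + 1)) ≤ ε := by
      rw [← mul_div_assoc, div_le_iff₀ (by positivity)]
      nlinarith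
    nlinarith
  rcases eq_or_ne t 0 with rfl | ht
  · simp [Real.zero_rpow hp.ne']
  refine le_antisymm (le t q) ?_
  have h1 := le t⁻¹ (t • q)
  rw [smul_smul, inv_mul_cancel₀ ht, one_smul, abs_inv, Real.inv_rpow (abs_nonneg _)] at h1
  have h2 : 0 < |t| ^ p := Real.rpow_pos_of_pos (abs_pos.mpr ht) _
  calc |t| ^ p * ‖q‖ ≤ |t| ^ p * ((|t| ^ p)⁻¹ * ‖t • q‖) := mul_le_mul_of_nonneg_left h1 h2.le
    _ = ‖t • q‖ := by field_simp

lemma infDist_lip (S : Set M) (x y : M) : |infDist x S - infDist y S| ≤ dist x y := by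
  have h1 := infDist_le_infDist_add_dist (x := x) (y := y) (s := S)
  have h2 := infDist_le_infDist_add_dist (x := y) (y := x) (s := S)
  rw [dist_comm y x] at h2
  rw [abs_le]; constructor <;> linarith

noncomputable def cut (o : M) (S : Set M) (ε : ℝ) (x : M) : ℝ :=
  clamp (2 - ε * dist x o) * clamp (infDist x S / ε - 1)

lemma cutA_lip (S : Set M) {ε : ℝ} (hε : 0 < ε) (x y : M) :
    |clamp (infDist x S / ε - 1) - clamp (infDist y S / ε - 1)| ≤ (1 / ε) * dist x y := by
  refine (clamp_lip _ _).trans ?_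
  have e : infDist x S / ε - 1 - (infDist y S / ε - 1) = (1 / ε) * (infDist x S - infDist y S) := by
    ring
  rw [e, abs_mul, abs_of_pos (by positivity : (0:ℝ) < 1 / ε)]
  exact mul_le_mul_of_nonneg_left (infDist_lip S x y) (by positivity)

lemma cutB_lip (o : M) {ε : ℝ} (hε : 0 < ε) (x y : M) :
    |clamp (2 - ε * dist x o) - clamp (2 - ε * dist y o)| ≤ ε * dist x y := by
  refine (clamp_lip _ _).trans ?_
  have e : 2 - ε * dist x o - (2 - ε * dist y o) = ε * (dist y o - dist x o) := by ring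
  rw [e, abs_mul, abs_of_pos hε]
  refine mul_le_mul_of_nonneg_left ?_ hε.le
  rw [dist_comm x y]; exact abs_dist_sub_le _ _ _

lemma cut_good (o : M) (S : Set M) {ε : ℝ} (hε : 0 < ε) :
    Good o (cut o S ε) (ε + 1 * (1 / ε)) 1 (2 / ε) := by
  have H : Good o (fun x => clamp (2 - ε * dist x o)) ε 1 (2 / ε) :=
    ⟨hε.le, zero_le_one, by positivity, cutB_lip o hε, fun x => clamp_abs _, fun x hx =>
      clamp_zero (by
        rw [div_lt_iff₀ hε] at hx
        linarith)⟩
  exact H.mul (by positivity) (cutA_lip S hε) (fun x => clamp_abs _)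

lemma cut_key (o : M) (S : Set M) (ho : o ∈ S) {ε : ℝ} (hε : 0 < ε) (x y : M)
    (hxy : infDist x S ≤ infDist y S) :
    |cut o S ε x - cut o S ε y| * infDist x S ≤ 4 * dist x y := by
  have hρ : 0 ≤ infDist x S := infDist_nonneg
  have hd : 0 ≤ dist x y := dist_nonneg
  have hA : |clamp (infDist x S / ε - 1) - clamp (infDist y S / ε - 1)| * infDist x S
      ≤ 2 * dist x y := by
    by_cases h : 2 * ε ≤ infDist x S
    · have a1 : 2 ≤ infDist x S / ε := by rw [le_div_iff₀ hε]; exact h
      have a2 : 2 ≤ infDist y S / ε := by rw [le_div_iff₀ hε]; exact h.trans hxy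
      rw [clamp_one (by linarith), clamp_one (by linarith)]
      simp
    · have := mul_le_mul (cutA_lip S hε x y) (not_le.mp h).le hρ (by positivity)
      have e : 1 / ε * dist x y * (2 * ε) = 2 * dist x y := by field_simp
      linarith
  have hB : |clamp (2 - ε * dist x o) - clamp (2 - ε * dist y o)| * infDist x S
      ≤ 2 * dist x y := by
    by_cases h : 2 / ε ≤ infDist x S
    · have a1 : 2 / ε ≤ dist x o := h.trans (infDist_le_dist_of_mem ho)
      have a2 : 2 / ε ≤ dist y o := (h.trans hxy).trans (infDist_le_dist_of_mem ho)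
      rw [div_le_iff₀ hε] at a1 a2
      rw [clamp_zero (by linarith), clamp_zero (by linarith)]
      simp
    · have := mul_le_mul (cutB_lip o hε x y) (not_le.mp h).le hρ (by positivity)
      have e : ε * dist x y * (2 / ε) = 2 * dist x y := by field_simp
      linarith
  unfold cut
  set a := clamp (infDist x S / ε - 1)
  set a' := clamp (infDist y S / ε - 1)
  set b := clamp (2 - ε * dist x o)
  set b' := clamp (2 - ε * dist y o)
  have ha : |a| ≤ 1 := clamp_abs _
  have hb' : |b'| ≤ 1 := clamp_abs _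
  have h1 : |b * a - b' * a'| ≤ |b - b'| + |a - a'| := by
    have e : b * a - b' * a' = (b - b') * a + b' * (a - a') := by ring
    rw [e]
    refine (abs_add_le _ _).trans ?_
    rw [abs_mul, abs_mul]
    have := mul_le_mul_of_nonneg_left ha (abs_nonneg (b - b'))
    have := mul_le_mul_of_nonneg_right hb' (abs_nonneg (a - a'))
    linarith
  have := mul_le_mul_of_nonneg_right h1 hρ
  nlinarith

lemma cut_abs (o : M) (S : Set M) (ε : ℝ) (x : M) : |cut o S ε x| ≤ 1 := by
  unfold cut
  rw [abs_mul]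
  exact mul_le_one₀ (clamp_abs _) (abs_nonneg _) (clamp_abs _)

lemma Ctx.final [CompleteSpace X] (c : Ctx p o δ) {μ : X} (S0 : Set M)
    (hZ : ∀ ε > 0, Z o δ μ {x | ε ≤ infDist x (insert o S0)}) :
    μ ∈ closure ((Submodule.span ℝ (δ '' S0) : Submodule ℝ X) : Set X) := by
  classical
  have hp := c.hp
  haveI : ContinuousConstSMul ℝ X := ⟨fun t =>
    AddMonoidHomClass.continuous_of_bound (DistribSMul.toAddMonoidHom X t) (|t| ^ p)
      (fun u => (c.hom t u).le)⟩
  set N : Submodule ℝ X := (Submodule.span ℝ (δ '' S0)).topologicalClosure with hN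
  haveI hNc : IsClosed (N : Set X) := Submodule.isClosed_topologicalClosure _
  set S : Set M := insert o S0 with hS
  have ho : o ∈ S := mem_insert _ _
  have hne : S.Nonempty := ⟨o, ho⟩
  have hq := quot_hom hp c.hom N
  have hπ : ∀ u : X, ‖N.mkQ u‖ ≤ ‖u‖ := fun u => Submodule.Quotient.norm_mk_le _ _
  have hπ0 : ∀ y ∈ S, N.mkQ (δ y) = 0 := by
    intro y hy
    rcases hy with rfl | hy
    · rw [c.h0, map_zero]
    · rw [Submodule.mkQ_apply, Submodule.Quotient.mk_eq_zero]
      exact Submodule.le_topologicalClosure _ (Submodule.subset_span ⟨y, hy, rfl⟩)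
  have hπ1 : ∀ x, ∀ t, infDist x S < t → ‖N.mkQ (δ x)‖ ≤ t ^ p := by
    intro x t ht
    obtain ⟨y, hy, hxy⟩ := (infDist_lt_iff hne).mp ht
    have : N.mkQ (δ x) = N.mkQ (δ x - δ y) := by rw [map_sub, hπ0 y hy, sub_zero]
    rw [this]
    exact (hπ _).trans ((c.iso x y).trans (Real.rpow_le_rpow dist_nonneg hxy.le hp.le))
  have hπ2 : ∀ x, infDist x S = 0 → N.mkQ (δ x) = 0 := by
    intro x hx
    apply eq_zero_of_small _ 1
    intro η hη
    have := hπ1 x (η ^ (1 / p)) (by rw [hx]; positivity)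
    rwa [← Real.rpow_mul hη.le, one_div_mul_cancel hp.ne', Real.rpow_one, ← one_mul η] at this
  have hπ3 : ∀ x, ‖N.mkQ (δ x)‖ ≤ (2 * infDist x S) ^ p := by
    intro x
    rcases (infDist_nonneg (x := x) (s := S)).eq_or_lt with h | h
    · rw [hπ2 x h.symm, norm_zero]; positivity
    · exact hπ1 x _ (by linarith)
  have main : N.mkQ μ = 0 := by
    apply eq_zero_of_small _ (1 + (8 ^ p + 1))
    intro η hη
    obtain ⟨F, u, hu, hd⟩ := c.approx μ hη
    obtain ⟨ε, hε, hF⟩ : ∃ ε > 0, ∀ x ∈ F, infDist x S ≠ 0 → cut o S ε x = 1 := by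
      have : ∀ᶠ ε in 𝓝[>] (0:ℝ), ∀ x ∈ F, infDist x S ≠ 0 → cut o S ε x = 1 := by
        rw [Filter.eventually_all_finset]
        intro x _
        by_cases hx : infDist x S = 0
        · exact Eventually.of_forall (fun _ h => absurd hx h)
        have hx' : 0 < infDist x S := lt_of_le_of_ne infDist_nonneg (Ne.symm hx)
        have hm : 0 < min (infDist x S / 2) (1 / (dist x o + 1)) := by positivity
        filter_upwards [Ioo_mem_nhdsGT hm] with ε hε _
        obtain ⟨e0, e1⟩ := hε
        have e2 := lt_of_lt_of_le e1 (min_le_left _ _)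
        have e3 := lt_of_lt_of_le e1 (min_le_right _ _)
        rw [lt_div_iff₀ (by positivity)] at e3
        have e4 : 2 ≤ infDist x S / ε := by rw [le_div_iff₀ e0]; linarith
        unfold cut
        rw [clamp_one (by nlinarith), clamp_one (by linarith), one_mul]
      obtain ⟨ε, h1, h2⟩ := (this.and self_mem_nhdsWithin).exists
      exact ⟨ε, h2, h1⟩
    have key : ∀ x y, infDist x S ≤ infDist y S →
        ‖cut o S ε x • N.mkQ (δ x) - cut o S ε y • N.mkQ (δ y)‖ ≤ (8 ^ p + 1) * dist x y ^ p := by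
      intro x y hxy
      refine (smul_diff_le hq _ _ _ _).trans ?_
      have h1 : |cut o S ε x - cut o S ε y| ^ p * ‖N.mkQ (δ x)‖ ≤ 8 ^ p * dist x y ^ p := by
        refine (mul_le_mul_of_nonneg_left (hπ3 x) (Real.rpow_nonneg (abs_nonneg _) _)).trans ?_
        rw [← Real.mul_rpow (abs_nonneg _) (mul_nonneg zero_le_two infDist_nonneg),
          ← Real.mul_rpow (by norm_num) dist_nonneg]
        refine Real.rpow_le_rpow (mul_nonneg (abs_nonneg _) (mul_nonneg zero_le_two infDist_nonneg))
          ?_ hp.le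
        have := cut_key o S ho hε x y hxy
        linarith
      have h2 : |cut o S ε y| ^ p * ‖N.mkQ (δ x) - N.mkQ (δ y)‖ ≤ 1 * dist x y ^ p := by
        refine mul_le_mul (Real.rpow_le_one (abs_nonneg _) (cut_abs _ _ _ _) hp.le) ?_
          (norm_nonneg _) zero_le_one
        rw [← map_sub]
        exact (hπ _).trans (c.iso x y)
      linarith
    obtain ⟨T, hT, hC⟩ := c.univ (X ⧸ N) hq (fun x => cut o S ε x • N.mkQ (δ x)) (8 ^ p + 1)
      (by positivity) (by simp [c.h0]) (fun x y => by
        rcases le_total (infDist x S) (infDist y S) with h | h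
        · exact key x y h
        · rw [norm_sub_rev, dist_comm]; exact key y x h)
    obtain ⟨T1, a1, b1⟩ := c.exists_op (cut_good o S hε)
    have z1 : T1 μ = 0 := by
      refine hZ ε hε _ _ _ _ (cut_good o S hε) ?_ T1 _ a1 b1
      intro x hx
      have hx' : infDist x S < ε := not_le.mp hx
      have : infDist x S / ε ≤ 1 := by rw [div_le_one hε]; exact hx'.le
      unfold cut
      rw [clamp_zero (t := infDist x S / ε - 1) (by linarith), mul_zero]
    have z2 : T μ = 0 := by
      have := vanish (δ := δ) (T - N.mkQ.comp T1)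
        ((8 ^ p + 1) + (((ε + 1 * (1 / ε)) * (2 / ε)) ^ p + 1 ^ p)) (fun u => by
          simp only [LinearMap.sub_apply, LinearMap.comp_apply]
          have := norm_sub_le (T u) (N.mkQ (T1 u))
          have := hπ (T1 u)
          have := hC u; have := b1 u
          linarith) Set.univ (fun x _ => by
          simp only [LinearMap.sub_apply, LinearMap.comp_apply, hT, a1, map_smul, sub_self]) μ
          (c.mem_closure μ)
      simpa [z1] using this
    have e1 : T u = N.mkQ u := by
      refine LinearMap.eqOn_span (s := δ '' (F : Set M)) ?_ hu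
      rintro _ ⟨x, hx, rfl⟩
      rw [hT]
      by_cases h : infDist x S = 0
      · rw [hπ2 x h, smul_zero]
      · rw [hF x hx h, one_smul]
    have e2 : N.mkQ μ = N.mkQ (μ - u) - T (μ - u) := by
      rw [map_sub, map_sub, e1, z2]; abel
    rw [e2]
    refine (norm_sub_le _ _).trans ?_
    have h1 := (hπ (μ - u)).trans hd.le
    have h2 := (hC (μ - u)).trans (mul_le_mul_of_nonneg_left hd.le (by positivity))
    linarith
  rw [Submodule.mkQ_apply, Submodule.Quotient.mk_eq_zero] at main
  exact main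

theorem Ctx.inter [CompleteSpace X] [CompleteSpace M] (c : Ctx p o δ) {ι : Type*}
    (K : ι → Set M) (hK : ∀ n, IsClosed (K n)) {μ : X}
    (hμ : ∀ n, μ ∈ closure ((Submodule.span ℝ (δ '' K n) : Submodule ℝ X) : Set X)) :
    μ ∈ closure ((Submodule.span ℝ (δ '' ⋂ n, K n) : Submodule ℝ X) : Set X) := by
  apply c.final
  intro ε hε
  apply c.Z_cantor (r := ε / 4) (by positivity)
  intro x hx y hxy
  have hx' : ε ≤ infDist x (insert o (⋂ n, K n)) := hx
  have hy : y ∉ ⋂ n, K n := by
    intro hy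
    have := infDist_le_dist_of_mem (x := x) (mem_insert_of_mem o hy)
    linarith
  rw [mem_iInter] at hy
  push Not at hy
  obtain ⟨n, hn⟩ := hy
  obtain ⟨s, hs, hb⟩ := Metric.isOpen_iff.mp (hK n).isOpen_compl y hn
  exact ⟨s, hs, Z_of_disjoint (hμ n) (fun z hz hz' => hb hz' hz)⟩

end Pool.Agent.H.MP_259edd_an
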